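import Mathlib

set_option autoImplicit false

open Filter Topology

namespace Pool.Agent.H.MP_b07b06_an

noncomputable def beta (t : ℝ) : ℝ := Real.smoothTransition (2 * t - 1) * Real.smoothTransition (3 - t)

lemma beta_one {t : ℝ} (h1 : 1 ≤ t) (h2 : t ≤ 2) : beta t = 1 := by
  unfold beta
  rw [Real.smoothTransition.one_of_one_le (by linarith),
    Real.smoothTransition.one_of_one_le (by linarith), mul_one]

lemma beta_small {t : ℝ} (h : t ≤ 1 / 2) : beta t = 0 := by
  unfold beta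
  rw [Real.smoothTransition.zero_of_nonpos (by linarith), zero_mul]

lemma beta_big {t : ℝ} (h : 3 ≤ t) : beta t = 0 := by
  unfold beta
  rw [Real.smoothTransition.zero_of_nonpos (x := 3 - t) (by linarith), mul_zero]

lemma beta_contDiff : ContDiff ℝ 1 beta := by
  unfold beta
  exact (Real.smoothTransition.contDiff.comp (by fun_prop)).mul
    (Real.smoothTransition.contDiff.comp (by fun_prop))

lemma beta_bound : ∃ L : ℝ, ∀ t, ‖deriv beta t‖ ≤ L := by
  have hs : HasCompactSupport beta := by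
    refine HasCompactSupport.intro (isCompact_Icc (a := 1 / 2) (b := 3)) fun x hx => ?_
    rw [Set.mem_Icc, not_and_or, not_le, not_le] at hx
    rcases hx with h | h
    · exact beta_small h.le
    · exact beta_big h.le
  exact (beta_contDiff.continuous_deriv le_rfl).bounded_above_of_compact_support hs.deriv

def nn (n0 j : ℕ) : ℕ := n0 * 100 ^ j

noncomputable def eta (n : ℕ) : ℝ := (1 / 16) ^ (5 * n)

lemma eta_pos (n : ℕ) : 0 < eta n := by unfold eta; positivity

lemma nn_mono (n0 : ℕ) {i j : ℕ} (h : i ≤ j) : nn n0 i ≤ nn n0 j :=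
  Nat.mul_le_mul_left _ (Nat.pow_le_pow_right (by norm_num) h)

lemma nn_succ (n0 j : ℕ) : nn n0 (j + 1) = 100 * nn n0 j := by unfold nn; ring

lemma nn_ge (n0 j : ℕ) : n0 ≤ nn n0 j := by simpa [nn] using nn_mono n0 (Nat.zero_le j)

lemma eta_anti {n m : ℕ} (h : n ≤ m) : eta m ≤ eta n :=
  pow_le_pow_of_le_one (by norm_num) (by norm_num) (by omega)

structure Good (n0 : ℕ) (b : ℕ → ℝ) : Prop where
  two : 2 ≤ n0
  nonneg : ∀ p, 0 ≤ b p
  small : ∀ p, b p ≤ (1 / 16) ^ (2 * p + n0)
  stage : ∀ j p, nn n0 j ≤ p → p < 2 * nn n0 j → b p = eta (nn n0 j)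
  late : ∀ j p, 2 * nn n0 j ≤ p → b p ≤ eta (nn n0 (j + 1))

lemma exists_b (n0 : ℕ) (h2 : 2 ≤ n0) : ∃ b, Good n0 b := by
  classical
  have uniq : ∀ i j p, nn n0 i ≤ p → p < 2 * nn n0 j → i ≤ j := by
    intro i j p h1 h3
    by_contra hlt
    have := nn_mono n0 (show j + 1 ≤ i by omega)
    rw [nn_succ] at this
    omega
  refine ⟨fun p => if h : ∃ j, nn n0 j ≤ p ∧ p < 2 * nn n0 j then eta (nn n0 h.choose) else 0,
    h2, fun p => ?_, fun p => ?_, fun j p h1 h3 => ?_, fun j p h1 => ?_⟩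
  · split_ifs
    · exact (eta_pos _).le
    · exact le_rfl
  · split_ifs with h
    · have h3 := h.choose_spec
      have h4 := nn_ge n0 h.choose
      exact pow_le_pow_of_le_one (by norm_num) (by norm_num) (by omega)
    · positivity
  · have h : ∃ j, nn n0 j ≤ p ∧ p < 2 * nn n0 j := ⟨j, h1, h3⟩
    rw [dif_pos h]
    have h4 := h.choose_spec
    rw [le_antisymm (uniq _ _ p h4.1 h3) (uniq _ _ p h1 h4.2)]
  · split_ifs with h
    · have h4 := h.choose_spec
      refine eta_anti (nn_mono n0 ?_)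
      by_contra hlt
      have := nn_mono n0 (show h.choose ≤ j by omega)
      omega
    · exact (eta_pos _).le

noncomputable def pt (b : ℕ → ℝ) : List Bool → ℝ
  | [] => 1
  | e :: l => pt b l / 16 + if e then b l.length else 0

variable {n0 : ℕ} {b : ℕ → ℝ}

lemma Good.pt_bounds (h : Good n0 b) (l : List Bool) :
    (1 / 16) ^ l.length ≤ pt b l ∧
      pt b l ≤ (1 / 16) ^ l.length * (9 / 8 - (1 / 16) ^ l.length / 8) := by
  induction l with
  | nil => simp [pt]; norm_num
  | cons e l ih =>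
    have h1 := h.nonneg l.length
    have h2 := h.small l.length
    have h3 : (1 / 16 : ℝ) ^ (2 * l.length + n0) ≤ (1 / 16) ^ (2 * l.length + 2) :=
      pow_le_pow_of_le_one (by norm_num) (by norm_num) (by have := h.two; omega)
    have h4 : (1 / 16 : ℝ) ^ (2 * l.length + 2) = (1 / 16) ^ l.length * (1 / 16) ^ l.length / 256 := by
      ring
    have h5 : 0 < (1 / 16 : ℝ) ^ l.length * (1 / 16) ^ l.length := by positivity
    simp only [pt, List.length_cons, pow_succ]
    constructor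
    · split_ifs <;> linarith [ih.1]
    · split_ifs <;> nlinarith [ih.2]

lemma Good.pt_le (h : Good n0 b) (l : List Bool) : pt b l ≤ 2 * (1 / 16) ^ l.length := by
  have h1 := (h.pt_bounds l).2
  have h5 : 0 < (1 / 16 : ℝ) ^ l.length * (1 / 16) ^ l.length := by positivity
  have h6 : 0 < (1 / 16 : ℝ) ^ l.length := by positivity
  nlinarith

lemma Good.pt_pos (h : Good n0 b) (l : List Bool) : 0 < pt b l :=
  lt_of_lt_of_le (by positivity) (h.pt_bounds l).1

noncomputable def hh (b : ℕ → ℝ) (x : ℝ) : ℝ := ∑' p, b p * beta (16 ^ p * x)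

lemma hh_zero : hh b 0 = 0 := by
  simp [hh, beta_small]

lemma Good.hh_pt (h : Good n0 b) (l : List Bool) : hh b (pt b l) = b l.length := by
  have h1 := (h.pt_bounds l).1
  have h2 := h.pt_le l
  have e : (16 : ℝ) ^ l.length * (1 / 16) ^ l.length = 1 := by rw [← mul_pow]; norm_num
  have hp : (0 : ℝ) < 16 ^ l.length := by positivity
  have a1 : 1 ≤ 16 ^ l.length * pt b l := by nlinarith
  have a2 : 16 ^ l.length * pt b l ≤ 2 := by nlinarith
  unfold hh
  rw [tsum_eq_single l.length, beta_one a1 a2, mul_one]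
  intro p hne
  rcases lt_or_gt_of_ne hne with h3 | h3
  · have : (16 : ℝ) ^ (p + 1) ≤ 16 ^ l.length := pow_le_pow_right₀ (by norm_num) h3
    rw [pow_succ] at this
    rw [beta_small, mul_zero]
    nlinarith [h.pt_pos l]
  · have : (16 : ℝ) ^ (l.length + 1) ≤ 16 ^ p := pow_le_pow_right₀ (by norm_num) h3
    rw [pow_succ] at this
    rw [beta_big, mul_zero]
    nlinarith [h.pt_pos l]

lemma Good.hh_deriv (h : Good n0 b) {L : ℝ} (hL : ∀ t, ‖deriv beta t‖ ≤ L)
    (hn : 4 * L ≤ 16 ^ n0) (x : ℝ) : ∃ d : ℝ, HasDerivAt (hh b) d x ∧ |d| ≤ 1 / 2 := by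
  have hb : ∀ p y, HasDerivAt (fun y => b p * beta (16 ^ p * y))
      (b p * (deriv beta (16 ^ p * y) * 16 ^ p)) y := by
    intro p y
    have h1 : HasDerivAt beta (deriv beta (16 ^ p * y)) (16 ^ p * y) :=
      (beta_contDiff.differentiable one_ne_zero _).hasDerivAt
    have h2 : HasDerivAt (fun y : ℝ => 16 ^ p * y) (16 ^ p) y := by
      simpa using (hasDerivAt_id y).const_mul ((16 : ℝ) ^ p)
    exact (h1.comp y h2).const_mul (b p)
  have hbd : ∀ p y, ‖b p * (deriv beta (16 ^ p * y) * 16 ^ p)‖ ≤ 1 / 4 * (1 / 2) ^ p := by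
    intro p y
    have L0 : 0 ≤ L := le_trans (norm_nonneg _) (hL 0)
    rw [norm_mul, norm_mul, Real.norm_of_nonneg (h.nonneg p),
      Real.norm_of_nonneg (by positivity : (0 : ℝ) ≤ 16 ^ p)]
    have e1 : (1 / 16 : ℝ) ^ (2 * p + n0) * (16 ^ n0 / 4 * 16 ^ p) = 1 / 4 * (1 / 16) ^ p := by
      have a1 : (1 / 16 : ℝ) ^ n0 * 16 ^ n0 = 1 := by rw [← mul_pow]; norm_num
      have a2 : (1 / 16 : ℝ) ^ p * 16 ^ p = 1 := by rw [← mul_pow]; norm_num
      rw [pow_add, two_mul, pow_add]
      linear_combination ((1 / 16 : ℝ) ^ p * ((1 / 16) ^ p * 16 ^ p) / 4) * a1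
        + ((1 / 16 : ℝ) ^ p / 4) * a2
    calc b p * (‖deriv beta (16 ^ p * y)‖ * 16 ^ p)
        ≤ (1 / 16 : ℝ) ^ (2 * p + n0) * (16 ^ n0 / 4 * 16 ^ p) := by
          have := hL (16 ^ p * y)
          gcongr
          · exact h.small p
          · linarith
      _ = 1 / 4 * (1 / 16) ^ p := e1
      _ ≤ 1 / 4 * (1 / 2) ^ p := by gcongr; norm_num
  have hs : Summable fun p : ℕ => (1 / 4 * (1 / 2) ^ p : ℝ) := summable_geometric_two.mul_left _
  refine ⟨_, hasDerivAt_tsum (y₀ := 0) hs hb hbd (by simp [beta_small, summable_zero]) x, ?_⟩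
  have := tsum_of_norm_bounded hs.hasSum (fun p => hbd p x)
  rw [tsum_mul_left, tsum_geometric_two, Real.norm_eq_abs] at this
  linarith

noncomputable def ff (b : ℕ → ℝ) : Fin 3 → ℝ → ℝ :=
  ![fun x => x / 16, fun x => x / 16 + hh b x, fun _ => 1]

lemma Good.ff_deriv (h : Good n0 b) {L : ℝ} (hL : ∀ t, ‖deriv beta t‖ ≤ L)
    (hn : 4 * L ≤ 16 ^ n0) (i : Fin 3) (x : ℝ) :
    ∃ d : ℝ, HasDerivAt (ff b i) d x ∧ |d| ≤ 3 / 4 := by
  fin_cases i
  · exact ⟨1 / 16, (hasDerivAt_id x).div_const 16, by norm_num [abs_of_pos]⟩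
  · obtain ⟨d, h1, h2⟩ := h.hh_deriv hL hn x
    refine ⟨1 / 16 + d, ((hasDerivAt_id x).div_const 16).add h1, ?_⟩
    rw [abs_le] at h2 ⊢
    constructor <;> linarith [h2.1, h2.2]
  · exact ⟨0, hasDerivAt_const x 1, by norm_num⟩

def KK (b : ℕ → ℝ) : Set ℝ := insert 0 (Set.range (pt b))

lemma Good.KK_compact (h : Good n0 b) : IsCompact (KK b) := by
  refine Tendsto.isCompact_insert_range_of_cofinite ?_
  have h1 : Tendsto (List.length : List Bool → ℕ) cofinite atTop := by
    rw [tendsto_atTop]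
    intro n
    rw [eventually_cofinite]
    simpa using List.finite_length_lt Bool n
  have h2 : Tendsto (fun n : ℕ => 2 * (1 / 16 : ℝ) ^ n) atTop (𝓝 0) := by
    simpa using (tendsto_pow_atTop_nhds_zero_of_lt_one (r := (1 / 16 : ℝ)) (by norm_num)
      (by norm_num)).const_mul 2
  exact squeeze_zero (fun l => (h.pt_pos l).le) h.pt_le (h2.comp h1)

lemma Good.KK_eq (h : Good n0 b) : KK b = ⋃ i, ff b i '' KK b := by
  apply Set.Subset.antisymm
  · rintro x (rfl | ⟨l, rfl⟩)
    · exact Set.mem_iUnion.mpr ⟨0, 0, Or.inl rfl, by simp [ff]⟩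
    · rcases l with _ | ⟨e, l⟩
      · exact Set.mem_iUnion.mpr ⟨2, 0, Or.inl rfl, by simp [ff, pt]⟩
      · cases e
        · exact Set.mem_iUnion.mpr ⟨0, pt b l, Or.inr ⟨l, rfl⟩, by simp [ff, pt]⟩
        · exact Set.mem_iUnion.mpr ⟨1, pt b l, Or.inr ⟨l, rfl⟩, by simp [ff, pt, h.hh_pt]⟩
  · refine Set.iUnion_subset fun i => ?_
    rintro _ ⟨x, hx, rfl⟩
    fin_cases i
    · rcases hx with rfl | ⟨l, rfl⟩
      · left; simp [ff]
      · right; exact ⟨false :: l, by simp [ff, pt]⟩
    · rcases hx with rfl | ⟨l, rfl⟩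
      · left; simp [ff, hh_zero]
      · right; exact ⟨true :: l, by simp [ff, pt, h.hh_pt]⟩
    · right; exact ⟨[], by simp [ff, pt]⟩

lemma Good.sep (h : Good n0 b) (j m : ℕ) (hm : m ≤ nn n0 j) :
    ∃ S : Finset ℝ, S.card = 2 ^ m ∧ (∀ x ∈ S, ∃ l : List Bool, l.length = nn n0 j + m ∧ pt b l = x) ∧
      (∀ x ∈ S, ∀ y ∈ S, |x - y| ≤ 2 * eta (nn n0 j)) ∧
      ∀ x ∈ S, ∀ y ∈ S, x ≠ y → 3 * eta (nn n0 j) * (1 / 16) ^ m ≤ |x - y| := by
  classical
  have he := eta_pos (nn n0 j)
  set η := eta (nn n0 j) with hη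
  induction m with
  | zero =>
    refine ⟨{pt b (List.replicate (nn n0 j) false)}, by simp, ?_, ?_, ?_⟩
    · intro x hx
      exact ⟨_, by simp, (Finset.mem_singleton.mp hx).symm⟩
    · intro x hx y hy
      rw [Finset.mem_singleton.mp hx, Finset.mem_singleton.mp hy]; simp; linarith
    · intro x hx y hy hne
      exact absurd ((Finset.mem_singleton.mp hx).trans (Finset.mem_singleton.mp hy).symm) hne
  | succ m ih =>
    obtain ⟨S, h1, h2, h3, h4⟩ := ih (by omega)
    have hq : (1 / 16 : ℝ) ^ m ≤ 1 := pow_le_one₀ (by norm_num) (by norm_num)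
    have hq0 : 0 < (1 / 16 : ℝ) ^ m := by positivity
    have hq1 : η * (1 / 16 : ℝ) ^ m ≤ η := by nlinarith
    have i1 : Function.Injective fun x : ℝ => x / 16 := fun x y hxy => by
      simp only at hxy; linarith
    have i2 : Function.Injective fun x : ℝ => x / 16 + η := fun x y hxy => by
      simp only at hxy; linarith
    refine ⟨S.image (fun x => x / 16) ∪ S.image (fun x => x / 16 + η), ?_, ?_, ?_, ?_⟩
    · rw [Finset.card_union_of_disjoint, Finset.card_image_of_injective _ i1,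
        Finset.card_image_of_injective _ i2, h1]
      · ring
      · rw [Finset.disjoint_left]
        intro x hx hy
        obtain ⟨u, hu, rfl⟩ := Finset.mem_image.mp hx
        obtain ⟨v, hv, hv'⟩ := Finset.mem_image.mp hy
        have := le_of_abs_le (h3 u hu v hv)
        linarith
    · intro x hx
      rcases Finset.mem_union.mp hx with hx | hx
      · obtain ⟨u, hu, rfl⟩ := Finset.mem_image.mp hx
        obtain ⟨l, hl, rfl⟩ := h2 u hu
        exact ⟨false :: l, by simp [hl, add_assoc], by simp [pt]⟩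
      · obtain ⟨u, hu, rfl⟩ := Finset.mem_image.mp hx
        obtain ⟨l, hl, rfl⟩ := h2 u hu
        refine ⟨true :: l, by simp [hl, add_assoc], ?_⟩
        simp only [pt, if_true]
        rw [h.stage j l.length (by omega) (by omega)]
    · intro x hx y hy
      rcases Finset.mem_union.mp hx with hx | hx <;> rcases Finset.mem_union.mp hy with hy | hy <;>
        obtain ⟨u, hu, rfl⟩ := Finset.mem_image.mp hx <;>
        obtain ⟨v, hv, rfl⟩ := Finset.mem_image.mp hy <;>
        have := abs_le.mp (h3 u hu v hv) <;>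
        rw [abs_le] <;> constructor <;> linarith [this.1, this.2]
    · intro x hx y hy hne
      rw [pow_succ]
      rcases Finset.mem_union.mp hx with hx | hx <;> rcases Finset.mem_union.mp hy with hy | hy <;>
        obtain ⟨u, hu, rfl⟩ := Finset.mem_image.mp hx <;>
        obtain ⟨v, hv, rfl⟩ := Finset.mem_image.mp hy
      · have := h4 u hu v hv (fun e => hne (by rw [e]))
        rw [← sub_div, abs_div, abs_of_pos (by norm_num : (0 : ℝ) < 16)]
        linarith
      · have := abs_le.mp (h3 u hu v hv)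
        rw [le_abs]; right; linarith [this.1, this.2]
      · have := abs_le.mp (h3 u hu v hv)
        rw [le_abs]; left; linarith [this.1, this.2]
      · have := h4 u hu v hv (fun e => hne (by rw [e]))
        rw [add_sub_add_right_eq_sub, ← sub_div, abs_div, abs_of_pos (by norm_num : (0 : ℝ) < 16)]
        linarith

lemma Good.approx (h : Good n0 b) (j p : ℕ) :
    ∃ Q : Finset ℝ, Q.card ≤ 2 ^ (min p (2 * nn n0 j)) ∧
      ∀ l : List Bool, l.length = p → ∃ y ∈ Q, |pt b l - y| ≤ 2 * eta (nn n0 (j + 1)) := by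
  classical
  have he := eta_pos (nn n0 (j + 1))
  induction p with
  | zero =>
    refine ⟨{1}, by simp, fun l hl => ⟨1, by simp, ?_⟩⟩
    rw [List.length_eq_zero_iff.mp hl]
    simp [pt]; linarith
  | succ p ih =>
    obtain ⟨Q, h1, h2⟩ := ih
    by_cases hp : p < 2 * nn n0 j
    · refine ⟨Q.image (fun x => x / 16) ∪ Q.image (fun x => x / 16 + b p), ?_, ?_⟩
      · have a1 := Finset.card_union_le (Q.image (fun x => x / 16)) (Q.image (fun x => x / 16 + b p))
        have a2 := Finset.card_image_le (s := Q) (f := fun x : ℝ => x / 16)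
        have a3 := Finset.card_image_le (s := Q) (f := fun x : ℝ => x / 16 + b p)
        rw [min_eq_left hp.le] at h1
        rw [min_eq_left (by omega), pow_succ]
        omega
      · intro l hl
        rcases l with _ | ⟨e, l⟩
        · simp at hl
        · have hl' : l.length = p := by simpa using hl
          obtain ⟨y, hy, hy'⟩ := h2 l hl'
          have := abs_le.mp hy'
          cases e
          · refine ⟨y / 16, Finset.mem_union_left _ (Finset.mem_image_of_mem _ hy), ?_⟩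
            simp only [pt, Bool.false_eq_true, if_false]
            rw [abs_le]; constructor <;> linarith [this.1, this.2]
          · refine ⟨y / 16 + b p, Finset.mem_union_right _ (Finset.mem_image_of_mem _ hy), ?_⟩
            simp only [pt, if_true, hl']
            rw [abs_le]; constructor <;> linarith [this.1, this.2]
    · refine ⟨Q.image (fun x => x / 16), ?_, ?_⟩
      · have a2 := Finset.card_image_le (s := Q) (f := fun x : ℝ => x / 16)
        rw [min_eq_right (by omega)] at h1 ⊢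
        omega
      · intro l hl
        rcases l with _ | ⟨e, l⟩
        · simp at hl
        · have hl' : l.length = p := by simpa using hl
          obtain ⟨y, hy, hy'⟩ := h2 l hl'
          have := abs_le.mp hy'
          have b1 := h.nonneg p
          have b2 := h.late j p (by omega)
          refine ⟨y / 16, Finset.mem_image_of_mem _ hy, ?_⟩
          simp only [pt, hl']
          rw [abs_le]
          split_ifs <;> constructor <;> linarith [this.1, this.2]

lemma Good.cover (h : Good n0 b) (j : ℕ) :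
    ∃ s : Finset ℝ, s.card ≤ 2 ^ (13 * nn n0 j) ∧
      ∀ x ∈ KK b, ∃ y ∈ s, |x - y| ≤ 2 * eta (nn n0 (j + 1)) := by
  classical
  choose Q hQ1 hQ2 using h.approx j
  have he := eta_pos (nn n0 (j + 1))
  refine ⟨insert 0 ((Finset.range (5 * nn n0 (j + 1))).biUnion Q), ?_, ?_⟩
  · have a1 := Finset.card_insert_le (0 : ℝ) ((Finset.range (5 * nn n0 (j + 1))).biUnion Q)
    have a2 := Finset.card_biUnion_le_card_mul (Finset.range (5 * nn n0 (j + 1))) Q
      (2 ^ (2 * nn n0 j)) (fun p _ => le_trans (hQ1 p)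
        (Nat.pow_le_pow_right (by norm_num) (min_le_right _ _)))
    rw [Finset.card_range, nn_succ] at a2
    rw [nn_succ] at a1 ⊢
    have a3 : 2 ≤ nn n0 j := le_trans h.two (nn_ge n0 j)
    set n := nn n0 j
    have a4 : n < 2 ^ n := Nat.lt_two_pow_self
    have a5 : 2 ^ 10 ≤ 2 ^ (10 * n) := Nat.pow_le_pow_right (by norm_num) (by omega)
    have a6 : 2 ^ (13 * n) = 2 ^ (10 * n) * 2 ^ n * 2 ^ (2 * n) := by ring
    have a7 : 0 < 2 ^ (2 * n) := by positivity
    have a8 : 1024 * (n + 1) ≤ 2 ^ (10 * n) * 2 ^ n := Nat.mul_le_mul a5 a4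
    have a9 := Nat.mul_le_mul_right (2 ^ (2 * n)) a8
    rw [a6]
    nlinarith
  · rintro x (rfl | ⟨l, rfl⟩)
    · exact ⟨0, by simp, by simp; linarith⟩
    · by_cases hl : l.length < 5 * nn n0 (j + 1)
      · obtain ⟨y, hy, hy'⟩ := hQ2 _ l rfl
        exact ⟨y, Finset.mem_insert_of_mem (Finset.mem_biUnion.mpr
          ⟨_, Finset.mem_range.mpr hl, hy⟩), hy'⟩
      · refine ⟨0, by simp, ?_⟩
        rw [sub_zero, abs_of_pos (h.pt_pos l)]
        have : (1 / 16 : ℝ) ^ l.length ≤ eta (nn n0 (j + 1)) :=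
          pow_le_pow_of_le_one (by norm_num) (by norm_num) (by omega)
        linarith [h.pt_le l]

section Transfer

variable {E : Type} [NormedAddCommGroup E] [NormedSpace ℝ E] (e : ℝ ≃ₗᵢ[ℝ] E)

def CS (K : Set E) (δ : ℝ) : Set ℕ :=
  {m : ℕ | ∃ s : Finset E, s.card = m ∧ K ⊆ ⋃ x ∈ s, Metric.closedBall x δ}

lemma Good.up (h : Good n0 b) (j : ℕ) (δ : ℝ) (hδ : 2 * eta (nn n0 (j + 1)) ≤ δ) :
    ∃ m ∈ CS (e '' KK b) δ, m ≤ 2 ^ (13 * nn n0 j) := by
  classical
  obtain ⟨s, h1, h2⟩ := h.cover j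
  refine ⟨(s.image e).card, ⟨_, rfl, ?_⟩, le_trans Finset.card_image_le h1⟩
  rintro _ ⟨x, hx, rfl⟩
  obtain ⟨y, hy, hy'⟩ := h2 x hx
  refine Set.mem_iUnion₂.mpr ⟨e y, Finset.mem_image_of_mem _ hy, ?_⟩
  rw [Metric.mem_closedBall, e.dist_map, Real.dist_eq]
  linarith

lemma Good.low (h : Good n0 b) (j : ℕ) (m : ℕ)
    (hm : m ∈ CS (e '' KK b) ((1 / 16) ^ (6 * nn n0 j))) : 2 ^ nn n0 j ≤ m := by
  obtain ⟨s, rfl, hs⟩ := hm
  obtain ⟨S, h1, h2, -, h4⟩ := h.sep j _ le_rfl
  have hex : ∀ x ∈ S, ∃ c ∈ s, dist (e x) c ≤ (1 / 16) ^ (6 * nn n0 j) := by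
    intro x hx
    obtain ⟨l, -, rfl⟩ := h2 x hx
    have := hs ⟨pt b l, Or.inr ⟨l, rfl⟩, rfl⟩
    obtain ⟨c, hc, hc'⟩ := Set.mem_iUnion₂.mp this
    exact ⟨c, hc, hc'⟩
  choose! c hc1 hc2 using hex
  rw [← h1]
  refine Finset.card_le_card_of_injOn c hc1 fun x hx y hy hxy => ?_
  by_contra hne
  have a1 := h4 x hx y hy hne
  have a2 := dist_triangle_right (e x) (e y) (c x)
  have a3 := hc2 x hx
  have a4 := hc2 y hy
  rw [← hxy] at a4
  rw [e.dist_map, Real.dist_eq] at a2
  have a5 : eta (nn n0 j) * (1 / 16) ^ nn n0 j = (1 / 16) ^ (6 * nn n0 j) := by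
    unfold eta; ring
  have a6 : (0 : ℝ) < (1 / 16) ^ (6 * nn n0 j) := by positivity
  linarith

lemma log16 (k : ℕ) : -Real.log ((1 / 16) ^ k) = 4 * k * Real.log 2 := by
  rw [Real.log_pow, one_div, Real.log_inv, show (16 : ℝ) = 2 ^ 4 by norm_num, Real.log_pow]
  push_cast; ring

theorem Good.no_limit (h : Good n0 b) : ¬ ∃ L : ℝ, Tendsto
    (fun δ : ℝ => Real.log ((sInf (CS (e '' KK b) δ) : ℕ) : ℝ) / (-Real.log δ))
    (𝓝[>] 0) (𝓝 L) := by
  rintro ⟨L, hL⟩
  have l2 : 0 < Real.log 2 := Real.log_pos (by norm_num)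
  have hn : Tendsto (nn n0) atTop atTop := by
    refine tendsto_atTop_mono (fun j => ?_) tendsto_id
    have h1 : j < 100 ^ j := Nat.lt_pow_self (by norm_num)
    have h2 := h.two
    simp only [id, nn]; nlinarith
  have ht : ∀ k : ℕ, 0 < k → Tendsto (fun j => (1 / 16 : ℝ) ^ (k * nn n0 j)) atTop (𝓝[>] 0) := by
    intro k hk
    refine tendsto_nhdsWithin_iff.mpr ⟨?_, Eventually.of_forall fun j => ?_⟩
    · exact (tendsto_pow_atTop_nhds_zero_of_lt_one (by norm_num) (by norm_num)).comp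
        (hn.const_mul_atTop' hk)
    · simp only [Set.mem_Ioi]; positivity
  have cmp : ∀ k j : ℕ, k ≤ 499 → 2 * eta (nn n0 (j + 1)) ≤ (1 / 16 : ℝ) ^ (k * nn n0 j) := by
    intro k j hk
    have a3 : 2 ≤ nn n0 j := le_trans h.two (nn_ge n0 j)
    have a1 : eta (nn n0 (j + 1)) ≤ (1 / 16 : ℝ) ^ (k * nn n0 j + 1) := by
      refine pow_le_pow_of_le_one (by norm_num) (by norm_num) ?_
      rw [nn_succ]; nlinarith
    rw [pow_succ] at a1
    have : (0 : ℝ) < (1 / 16 : ℝ) ^ (k * nn n0 j) := by positivity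
    linarith
  have npos : ∀ j, (0 : ℝ) < nn n0 j := fun j => by
    have : 2 ≤ nn n0 j := le_trans h.two (nn_ge n0 j)
    exact_mod_cast (by omega : 0 < nn n0 j)
  have h1 : 1 / 24 ≤ L := by
    refine ge_of_tendsto' (hL.comp (ht 6 (by norm_num))) fun j => ?_
    obtain ⟨m, hm, -⟩ := h.up e j _ (cmp 6 j (by norm_num))
    have a1 := h.low e j _ (Nat.sInf_mem ⟨m, hm⟩)
    have a2 : (2 : ℝ) ^ nn n0 j ≤ (sInf (CS (e '' KK b) ((1 / 16) ^ (6 * nn n0 j))) : ℕ) := by
      exact_mod_cast a1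
    have a3 := Real.log_le_log (by positivity) a2
    rw [Real.log_pow] at a3
    have := npos j
    simp only [Function.comp, log16]
    rw [le_div_iff₀ (by push_cast; positivity)]
    push_cast; linarith
  have h2 : L ≤ 1 / 100 := by
    refine le_of_tendsto' (hL.comp (ht 400 (by norm_num))) fun j => ?_
    obtain ⟨m, hm, hm'⟩ := h.up e j _ (cmp 400 j (by norm_num))
    have a1 := le_trans (Nat.sInf_le hm) hm'
    have := npos j
    have a3 : Real.log ((sInf (CS (e '' KK b) ((1 / 16) ^ (400 * nn n0 j))) : ℕ) : ℝ)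
        ≤ 13 * nn n0 j * Real.log 2 := by
      rcases Nat.eq_zero_or_pos (sInf (CS (e '' KK b) ((1 / 16) ^ (400 * nn n0 j)))) with h0 | h0
      · rw [h0]; simp only [Nat.cast_zero, Real.log_zero]; positivity
      · have a2 : ((sInf (CS (e '' KK b) ((1 / 16) ^ (400 * nn n0 j))) : ℕ) : ℝ)
            ≤ (2 : ℝ) ^ (13 * nn n0 j) := by exact_mod_cast a1
        have a4 := Real.log_le_log (by exact_mod_cast h0) a2
        rw [Real.log_pow] at a4
        push_cast at a4; exact a4
    simp only [Function.comp, log16]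
    rw [div_le_iff₀ (by push_cast; positivity)]
    push_cast
    have := mul_pos this l2
    linarith
  linarith

end Transfer

end Pool.Agent.H.MP_b07b06_an
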